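import Pool.Agent.U745.DS.Use
import Pool.Agent.R409.RA.Mean
import Pool.Agent.K4H74.SC.Lead

/-!
# Artin L-functions at `s = 0` as smoothed Euler products
-/

set_option autoImplicit false

namespace Pool.Agent.U745.SK

open NumberField Filter Topology Complex
open Pool.Agent.K4H74 Pool.Agent.K4H74.SK Pool.Agent.U745.DS
open Pool.Agent.U745.LT (Leading leading_iff)

variable {E : Ext}

instance count_pr (E : Ext) : Countable (Pr E × ℕ+) := by
  have : Countable (Pr E) := (prEquiv E).injective.countable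
  infer_instance

/-- the frequencies -/
noncomputable def sl (E : Ext) (x : Pr E × ℕ+) : ℝ := (x.2 : ℕ) * Real.log (Ideal.absNorm x.1.1)

/-- the coefficients -/
noncomputable def sc (χ : G E → ℂ) (x : Pr E × ℕ+) : ℂ := frobMean χ x.1.1 x.2 / (x.2 : ℕ)

lemma sl_nonneg (x : Pr E × ℕ+) : 0 ≤ sl E x :=
  mul_nonneg (Nat.cast_nonneg _) (Real.log_natCast_nonneg _)

lemma norm_ne (x : Pr E × ℕ+) : ((Ideal.absNorm x.1.1 : ℕ) : ℂ) ≠ 0 := by
  have h : Ideal.absNorm x.1.1 ≠ 0 := by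
    intro h
    rw [Ideal.absNorm_eq_zero_iff] at h
    exact x.1.2.2 h
  exact_mod_cast h

lemma logTerm_eq (χ : G E → ℂ) (s : ℂ) (x : Pr E × ℕ+) :
    logTerm χ s x = sc χ x * exp (-(sl E x * s)) := by
  unfold logTerm sc sl
  rw [cpow_def_of_ne_zero (norm_ne x), exp_neg, div_eq_mul_inv, mul_inv, div_eq_mul_inv]
  have e1 : log ((Ideal.absNorm x.1.1 : ℕ) : ℂ) * (((x.2 : ℕ) : ℂ) * s) =
      (((x.2 : ℕ) * Real.log (Ideal.absNorm x.1.1) : ℝ) : ℂ) * s := by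
    rw [← natCast_log]
    push_cast
    ring
  rw [e1]
  ring

/-- `f` is a meromorphic continuation of `L(s, χ)` to the plane -/
def IsCont (χ : G E → ℂ) (f : ℂ → ℂ) : Prop :=
  (∀ z, MeromorphicAt f z) ∧ ∀ s : ℂ, 1 < s.re → f s = exp (∑' x, logTerm χ s x)

theorem half (χ : G E → ℂ) {f : ℂ → ℂ} (hf : IsCont χ f) (σ₀ : ℝ) :
    Half (sl E) (sc χ) σ₀ 1 f where
  pos := sl_nonneg
  sum := fun σ hσ => by
    have h1 := (logTerm_summable χ (s := (σ : ℂ)) (by simpa using hσ)).norm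
    refine h1.congr fun x => ?_
    rw [logTerm_eq, norm_term, ofReal_re]
  mer := fun s _ => hf.1 s
  eq := fun s hs => by
    rw [hf.2 s hs]
    congr 1
    exact tsum_congr fun x => logTerm_eq χ s x

theorem ser (χ : G E → ℂ) {f : ℂ → ℂ} (hf : IsCont χ f) : Ser (sl E) (sc χ) 1 f := by
  refine ⟨zero_le_one, sl_nonneg, ?_, fun s _ => hf.1 s, ?_⟩
  · exact (half χ hf 0).sum
  · exact (half χ hf 0).eq

theorem lead_eq {c : Pair → ℂ} (hc : IsLeading c) {χ : G E → ℂ} (hχ : IsChr χ) {f : ℂ → ℂ}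
    (hf : IsCont χ f) : c ⟨E, χ⟩ = meromorphicTrailingCoeffAt f 0 := by
  have h := hc 1 (fun _ => ⟨E, χ⟩) (fun _ => 1) f (fun _ => hχ) hf.1 (fun s hs => by
    refine ⟨fun _ => ∑' x, logTerm χ s x, fun _ => (logTerm_summable χ hs).hasSum, ?_⟩
    rw [hf.2 s hs]
    simp)
  simpa using h

theorem leading_iff' {c : Pair → ℂ} (hc : IsLeading c) {χ : G E → ℂ} (hχ : IsChr χ) {f : ℂ → ℂ}
    (hf : IsCont χ f) {r : ℤ} {b : ℂ} (hb : b ≠ 0) :
    Leading f 0 r b ↔ meromorphicOrderAt f 0 = r ∧ c ⟨E, χ⟩ = b := by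
  rw [leading_iff (hf.1 0) hb, lead_eq hc hχ hf]

/-- two meromorphic functions have a common direction without zeros and poles -/
theorem common_clear {ι ι' : Type} {l : ι → ℝ} {a : ι → ℂ}
    {l' : ι' → ℝ} {a' : ι' → ℂ} {A A' : ℝ} {F F' : ℂ → ℂ} (h : Ser l a A F)
    (h' : Ser l' a' A' F') : ∃ τ : ℝ, Clear F τ ∧ Clear F' τ := by
  by_contra hcon
  unfold Clear at hcon
  push Not at hcon
  have h1 := (h.blocked_finite 1).union (h'.blocked_finite 1)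
  have h2 : Set.Icc (-1 : ℝ) 1 ⊆
      {τ : ℝ | |τ| ≤ 1 ∧ ∃ x : ℝ, 0 < x ∧ meromorphicOrderAt F (rp τ x) ≠ 0} ∪
      {τ : ℝ | |τ| ≤ 1 ∧ ∃ x : ℝ, 0 < x ∧ meromorphicOrderAt F' (rp τ x) ≠ 0} := by
    intro τ hτ
    have hτ' : |τ| ≤ 1 := abs_le.2 hτ
    by_cases h3 : ∃ x : ℝ, 0 < x ∧ meromorphicOrderAt F (rp τ x) ≠ 0
    · exact Or.inl ⟨hτ', h3⟩
    · push Not at h3
      exact Or.inr ⟨hτ', hcon τ h3⟩
  exact (Set.Icc_infinite (by norm_num : (-1 : ℝ) < 1)) (h1.subset h2)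

end Pool.Agent.U745.SK
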